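import Pool.Agent.Helper7.BT.JJa
import Pool.Agent.Helper7.BT.JJb
import Pool.Agent.Helper83.BT.CHI

/-!
# Block FE0: the outer field of the first bubble
-/

namespace Pool.Helper4.BT
open MeasureTheory Metric Set Laplacian InnerProductSpace

theorem FE0_J_zero (m : ℕ) (x : E) : J m (fun _ => 0) x = 0 := by
  simp [J]

theorem FE0_J_sum {m : ℕ} (s : Finset ℕ) (g : ℕ → E → ℝ) (hg : ∀ l, Measurable (g l)) (x : E) :
    J m (fun y => ∑ l ∈ s, g l y) x ≤ ∑ l ∈ s, J m (g l) x := by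
  classical
  induction s using Finset.induction_on with
  | empty => simp [FE0_J_zero]
  | insert a s ha ih =>
    rw [Finset.sum_insert ha]
    have e : (fun y => ∑ l ∈ insert a s, g l y) = fun y => (∑ l ∈ s, g l y) + g a y := by
      ext y
      rw [Finset.sum_insert ha, add_comm]
    rw [e, add_comm (J m (g a) x)]
    exact (J_add_le _ _ (hg a) x).trans (add_le_add_left ih _)

theorem FE0_U_meas (μ : ℝ) (z : E) : Measurable (U μ z) := by
  unfold U A
  fun_prop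

theorem FE0_U_nonneg (μ : ℝ) (z x : E) : 0 ≤ U μ z x := by
  unfold U A
  positivity

/-- `U μ z x ≤ 24 μ² / d⁴` if `|x - z| ≥ d`. -/
theorem FE0_U_far {μ d : ℝ} (hd : 0 < d) {z x : E} (h : d ≤ ‖x - z‖) :
    U μ z x ≤ 24 * μ ^ 2 / d ^ 4 := by
  unfold U A
  have h1 : d ^ 2 ≤ μ ^ 2 + ‖x - z‖ ^ 2 := by
    nlinarith [sq_nonneg μ, norm_nonneg (x - z)]
  have h2 : d ^ 4 ≤ (μ ^ 2 + ‖x - z‖ ^ 2) ^ 2 := by
    have := pow_le_pow_left₀ (by positivity) h1 2
    nlinarith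
  gcongr

/-- `U μ z x ≤ 24 / μ²`. -/
theorem FE0_U_max {μ : ℝ} (hμ : 0 < μ) (z x : E) : U μ z x ≤ 24 / μ ^ 2 := by
  unfold U A
  rw [div_le_div_iff₀ (by positivity) (by positivity)]
  have h1 : μ ^ 2 ≤ μ ^ 2 + ‖x - z‖ ^ 2 := by
    nlinarith [sq_nonneg μ, sq_nonneg ‖x - z‖]
  have h2 := pow_le_pow_left₀ (by positivity) h1 2
  nlinarith

theorem FE0_sqrt_A {μ d : ℝ} (hd : 0 ≤ d) {z x : E} (h : d ≤ ‖x - z‖) : d ≤ √(A μ z x) := by
  apply Real.le_sqrt_of_sq_le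
  unfold A
  nlinarith [sq_nonneg μ]

theorem FE0_sqrt_A' {μ : ℝ} (_hμ : 0 ≤ μ) (z x : E) : μ ≤ √(A μ z x) := by
  apply Real.le_sqrt_of_sq_le
  unfold A
  nlinarith [sq_nonneg ‖x - z‖]

/-- The potential of the square of one bubble outside the ball of radius `ρ`. -/
theorem FE0_one : ∃ C : ℝ, 0 < C ∧ ∀ (k : ℕ) (μ0 μ ρ : ℝ) (c z x : E), 0 < μ → μ ≤ μ0 → 0 < ρ →
    ρ ≤ 1 → μ0 ≤ 32 ^ (2 * k) * ρ ^ 2 → (‖z - c‖ ≤ ρ / 4 ∨ 8 * ρ ≤ ‖z - c‖) →
    x ∈ closedBall c (2 * ρ) →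
    J 4 ((ball c ρ)ᶜ.indicator (fun y => U μ z y ^ 2)) x ≤ ENNReal.ofReal (C * 32 ^ (8 * k)) ∧
    J 5 ((ball c ρ)ᶜ.indicator (fun y => U μ z y ^ 2)) x
      ≤ ENNReal.ofReal (C * 32 ^ (8 * k) / ρ) := by
  obtain ⟨C, hC, hJ⟩ := J_U_sq
  refine ⟨169 * 24 * C, by positivity, ?_⟩
  intro k μ0 μ ρ c z x hμ hμ0 hρ hρ1 hμρ hz hx
  have hxc : ‖x - c‖ ≤ 2 * ρ := by simpa [dist_eq_norm] using hx
  set L : ℝ := 32 ^ (2 * k) with hL
  have hL1 : 1 ≤ L := one_le_pow₀ (by norm_num)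
  have hL4 : (32 : ℝ) ^ (8 * k) = L ^ 4 := by
    rw [hL, ← pow_mul]
    congr 1
    ring
  have hμL : μ ≤ L * ρ ^ 2 := hμ0.trans hμρ
  rw [hL4]
  rcases hz with hz | hz
  · -- inner bubble
    have hcmp : ∀ y, (ball c ρ)ᶜ.indicator (fun y => U μ z y ^ 2) y
        ≤ (169 * (μ ^ 4 / ρ ^ 4)) * U ρ c y ^ 2 := by
      intro y
      by_cases hy : y ∈ (ball c ρ)ᶜ
      · rw [indicator_of_mem hy]
        have hy' : ρ ≤ ‖y - c‖ := by simpa [dist_eq_norm] using hy
        have h1 := U_cmp hμ hρ hz hy'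
        have h2 := pow_le_pow_left₀ (FE0_U_nonneg _ _ _) h1 2
        refine h2.trans (le_of_eq ?_)
        field_simp
        ring
      · rw [indicator_of_notMem hy]
        positivity
    have hμ4 : μ ^ 4 ≤ L ^ 4 * ρ ^ 8 := by
      calc μ ^ 4 ≤ (L * ρ ^ 2) ^ 4 := pow_le_pow_left₀ hμ.le hμL 4
        _ = L ^ 4 * ρ ^ 8 := by ring
    have hUm := FE0_U_max hρ c x
    have hUn := FE0_U_nonneg ρ c x
    obtain ⟨j4, j5⟩ := hJ ρ c x hρ
    have hq : 0 ≤ 169 * (μ ^ 4 / ρ ^ 4) := by positivity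
    constructor
    · refine (J_mono hcmp x).trans ?_
      rw [J_const_mul _ hq]
      refine (mul_le_mul_right j4 _).trans ?_
      rw [← ENNReal.ofReal_mul hq]
      apply ENNReal.ofReal_le_ofReal
      calc 169 * (μ ^ 4 / ρ ^ 4) * (C * U ρ c x)
          ≤ 169 * (L ^ 4 * ρ ^ 8 / ρ ^ 4) * (C * (24 / ρ ^ 2)) := by gcongr
        _ = 169 * 24 * C * L ^ 4 * ρ ^ 2 := by field_simp
        _ ≤ 169 * 24 * C * L ^ 4 * 1 := by
          gcongr
          nlinarith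
        _ = _ := by ring
    · refine (J_mono hcmp x).trans ?_
      rw [J_const_mul _ hq]
      refine (mul_le_mul_right j5 _).trans ?_
      rw [← ENNReal.ofReal_mul hq]
      apply ENNReal.ofReal_le_ofReal
      have hs := FE0_sqrt_A' hρ.le c x
      calc 169 * (μ ^ 4 / ρ ^ 4) * (C * U ρ c x / √(A ρ c x))
          ≤ 169 * (L ^ 4 * ρ ^ 8 / ρ ^ 4) * (C * (24 / ρ ^ 2) / ρ) := by gcongr
        _ = 169 * 24 * C * L ^ 4 / ρ * ρ ^ 2 := by field_simp
        _ ≤ 169 * 24 * C * L ^ 4 / ρ * 1 := by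
          gcongr
          nlinarith
        _ = _ := by ring
  · -- outer bubble
    have hxz : ρ ≤ ‖x - z‖ := by
      have h1 := norm_sub_le (x - c) (x - z)
      have e : x - c - (x - z) = z - c := by abel
      rw [e] at h1
      linarith
    have hcmp : ∀ y, (ball c ρ)ᶜ.indicator (fun y => U μ z y ^ 2) y ≤ U μ z y ^ 2 := by
      intro y
      apply indicator_le_self'
      intro y _
      positivity
    have hUf := FE0_U_far (μ := μ) hρ hxz
    have hUn := FE0_U_nonneg μ z x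
    have hμ2 : μ ^ 2 ≤ L ^ 4 * ρ ^ 4 := by
      calc μ ^ 2 ≤ (L * ρ ^ 2) ^ 2 := pow_le_pow_left₀ hμ.le hμL 2
        _ = L ^ 2 * ρ ^ 4 := by ring
        _ ≤ L ^ 4 * ρ ^ 4 := by
          exact mul_le_mul_of_nonneg_right (pow_le_pow_right₀ hL1 (by norm_num)) (by positivity)
    obtain ⟨j4, j5⟩ := hJ μ z x hμ
    constructor
    · refine (J_mono hcmp x).trans (j4.trans (ENNReal.ofReal_le_ofReal ?_))
      calc C * U μ z x ≤ C * (24 * (L ^ 4 * ρ ^ 4) / ρ ^ 4) := by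
            gcongr
            refine hUf.trans ?_
            gcongr
        _ = 24 * C * L ^ 4 := by field_simp
        _ ≤ 169 * 24 * C * L ^ 4 := by
          have : 0 ≤ C * L ^ 4 := by positivity
          nlinarith
    · refine (J_mono hcmp x).trans (j5.trans (ENNReal.ofReal_le_ofReal ?_))
      have hs := FE0_sqrt_A (μ := μ) hρ.le hxz
      calc C * U μ z x / √(A μ z x) ≤ C * (24 * (L ^ 4 * ρ ^ 4) / ρ ^ 4) / ρ := by
            gcongr
            refine hUf.trans ?_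
            gcongr
        _ = 24 * C * L ^ 4 / ρ := by field_simp
        _ ≤ 169 * 24 * C * L ^ 4 / ρ := by
          have : 0 ≤ C * L ^ 4 := by positivity
          gcongr
          norm_num

/-- The pointwise majorant. -/
theorem FE0_nl {k : ℕ} {Λ C3 lam s : ℝ} {a : ℕ → ℝ} (hC3 : 1 ≤ C3) (hlam : 0 ≤ lam ∧ lam ≤ Λ)
    (ha : ∀ l, 0 ≤ a l) (h : |s| ≤ C3 * (1 + ∑ l ∈ Finset.range k, a l)) :
    |nl lam s| ≤ ((Λ + 1) * C3 ^ 2 * (k + 1)) * (1 + ∑ l ∈ Finset.range k, a l ^ 2) := by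
  set S := ∑ l ∈ Finset.range k, a l with hS
  have hS0 : 0 ≤ S := Finset.sum_nonneg (fun l _ => ha l)
  have h1 : |nl lam s| ≤ Λ * |s| + |s| ^ 2 := by
    rw [nl]
    refine (abs_add_le _ _).trans ?_
    rw [abs_mul, abs_mul, abs_abs, abs_of_nonneg hlam.1]
    have := mul_le_mul_of_nonneg_right hlam.2 (abs_nonneg s)
    nlinarith
  have h2 : (1 + S) ^ 2 ≤ (k + 1) * (1 + ∑ l ∈ Finset.range k, a l ^ 2) := by
    have h3 : S ^ 2 ≤ k * ∑ l ∈ Finset.range k, a l ^ 2 := by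
      have := sq_sum_le_card_mul_sum_sq (s := Finset.range k) (f := a)
      simpa using this
    set Q := ∑ l ∈ Finset.range k, a l ^ 2 with hQ
    have hQ0 : 0 ≤ Q := Finset.sum_nonneg (fun l _ => sq_nonneg _)
    -- (1+S)^2 ≤ (1+k)(1+Q) by Cauchy-Schwarz
    have hk : (0 : ℝ) ≤ k := Nat.cast_nonneg k
    have h4 : 2 * S ≤ k + Q := by
      rcases eq_or_lt_of_le hk with hk0 | hk0
      · rw [← hk0] at h3
        have : S = 0 := by nlinarith
        rw [this, ← hk0]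
        linarith
      · have : S ≤ (k + Q) / 2 := by
          apply le_of_sq_le_sq _ (by positivity)
          nlinarith [sq_nonneg ((k : ℝ) - Q)]
        linarith
    nlinarith
  have hΛ : 0 ≤ Λ := hlam.1.trans hlam.2
  have h5 : |s| ≤ C3 * (1 + S) := h
  have h6 : 1 ≤ 1 + S := by linarith
  have h7 : |s| ^ 2 ≤ C3 ^ 2 * (1 + S) ^ 2 := by
    have := pow_le_pow_left₀ (abs_nonneg s) h5 2
    nlinarith
  have h8 : |s| ≤ C3 ^ 2 * (1 + S) ^ 2 := by
    have h9 : 1 ≤ C3 * (1 + S) := by nlinarith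
    nlinarith
  calc |nl lam s| ≤ Λ * |s| + |s| ^ 2 := h1
    _ ≤ Λ * (C3 ^ 2 * (1 + S) ^ 2) + C3 ^ 2 * (1 + S) ^ 2 :=
      add_le_add (mul_le_mul_of_nonneg_left h8 hΛ) h7
    _ = (Λ + 1) * C3 ^ 2 * (1 + S) ^ 2 := by ring
    _ ≤ (Λ + 1) * C3 ^ 2 * ((k + 1) * (1 + ∑ l ∈ Finset.range k, a l ^ 2)) := by
      apply mul_le_mul_of_nonneg_left h2
      positivity
    _ = _ := by ring

theorem fe0 : ∀ (k : ℕ) (Λ R C3 : ℝ), ∃ C : ℝ, 0 < C ∧ ∀ τ : ℝ, 0 < τ → τ ≤ 1 / 64 →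
    ∃ ω0 : ℝ, 0 < ω0 ∧ ∀ (ω : ℝ) (p : E) (u : E → ℝ) (lam : ℝ) (mu : ℕ → ℝ) (z : ℕ → E)
      (sg : ℕ → ℝ) (ρ : ℝ), ω ≤ ω0 → Conf k Λ R C3 τ ω p u lam mu z sg → Rho0 k mu z ρ →
      ∀ x ∈ closedBall (z 0) (2 * ρ),
      J 4 (fun y => |(chi p (R / 2) y - chi (z 0) ρ y) * nl lam (u y)|) x
        ≤ ENNReal.ofReal C ∧
      J 5 (fun y => |(chi p (R / 2) y - chi (z 0) ρ y) * nl lam (u y)|) x
        ≤ ENNReal.ofReal (C / ρ) := by
  intro k Λ R C3
  by_cases hR : 0 < R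
  swap
  · refine ⟨1, one_pos, fun τ _ _ => ⟨1, one_pos, ?_⟩⟩
    intro ω p u lam mu z sg ρ _ hconf
    exact absurd hconf.hR.1 hR
  obtain ⟨CB, hCB, hB⟩ := J_ball
  obtain ⟨CU, hCU, hU⟩ := FE0_one
  set C4 : ℝ := (|Λ| + 1) * C3 ^ 2 * (k + 1) with hC4
  have hC40 : 0 ≤ C4 := by positivity
  set CF : ℝ := C4 * (CB + k * (CU * 32 ^ (8 * k))) + 1 with hCF
  have hCF0 : 0 < CF := by positivity
  refine ⟨CF, hCF0, fun τ hτ hτ1 => ⟨(R / 16) ^ 2, by positivity, ?_⟩⟩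
  intro ω p u lam mu z sg ρ hω hconf hrho x hx
  have hk2 : 2 ≤ k := hconf.hk
  have hR1 : R ≤ 1 := hconf.hR.2
  have hΛ : 0 ≤ Λ := hconf.hlam.1.trans hconf.hlam.2
  have hmu0 : 0 < mu 0 := hconf.hmu 0 (by omega)
  have hρ := hrho.pos
  have hρR : ρ ≤ R / 16 := by
    apply le_of_sq_le_sq _ (by positivity)
    exact hrho.le.trans (hconf.hmu0.trans hω)
  have hρ1 : ρ ≤ 1 := by linarith
  have hz0 : ‖z 0 - p‖ ≤ R / 64 := (hconf.hz 0 (by omega)).trans hconf.hωR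
  have hω1 : ω ≤ 1 := hconf.hω.2.trans (hτ1.trans (by norm_num))
  -- scales
  have hmul : ∀ l < k, mu l ≤ mu 0 := by
    intro l hl
    rcases Nat.eq_zero_or_pos l with h0 | h0
    · rw [h0]
    · have := hconf.hsep 0 l h0 hl
      nlinarith
  have hgap : ∀ l < k, ‖z l - z 0‖ ≤ ρ / 4 ∨ 8 * ρ ≤ ‖z l - z 0‖ := by
    intro l hl
    rcases Nat.eq_zero_or_pos l with h0 | h0
    · left
      rw [h0]
      simp
      positivity
    · exact hrho.gap l h0 hl
  set g : ℕ → E → ℝ := fun l => (ball (z 0) ρ)ᶜ.indicator (fun y => U (mu l) (z l) y ^ 2) with hg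
  set b : E → ℝ := (closedBall p R).indicator (fun _ => (1 : ℝ)) with hb
  have hgm : ∀ l, Measurable (g l) := fun l =>
    ((FE0_U_meas _ _).pow_const 2).indicator measurableSet_ball.compl
  have hbm : Measurable b := measurable_const.indicator measurableSet_closedBall
  have hg0 : ∀ l y, 0 ≤ g l y := fun l y => indicator_nonneg (fun y _ => by positivity) y
  have hb0 : ∀ y, 0 ≤ b y := fun y => indicator_nonneg (fun y _ => by norm_num) y
  -- the pointwise bound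
  have hpt : ∀ y, |(chi p (R / 2) y - chi (z 0) ρ y) * nl lam (u y)|
      ≤ C4 * ((∑ l ∈ Finset.range k, g l y) + b y) := by
    intro y
    have hR0 : 0 ≤ C4 * ((∑ l ∈ Finset.range k, g l y) + b y) :=
      mul_nonneg hC40 (add_nonneg (Finset.sum_nonneg (fun l _ => hg0 l y)) (hb0 y))
    by_cases h1 : ‖y - z 0‖ < ρ
    · have h2 : ‖y - p‖ ≤ R / 2 := by
        have h3 := norm_add_le (y - z 0) (z 0 - p)
        have e : y - z 0 + (z 0 - p) = y - p := by abel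
        rw [e] at h3
        linarith
      rw [chi_eq_one hρ h1.le, chi_eq_one (by positivity) h2]
      simpa using hR0
    · push Not at h1
      by_cases h2 : ‖y - p‖ ≤ R
      · have hy1 : y ∈ (ball (z 0) ρ)ᶜ := by simpa [dist_eq_norm] using h1
        have hy2 : y ∈ closedBall p R := by simpa [dist_eq_norm] using h2
        have hs := hconf.hstar y hy2
        have h3 := FE0_nl (a := fun l => U (mu l) (z l) y) hconf.hC3 hconf.hlam
          (fun l => FE0_U_nonneg _ _ _) hs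
        have h4 : |chi p (R / 2) y - chi (z 0) ρ y| ≤ 1 := by
          rw [abs_le]
          have := chi_nonneg p (R / 2) y
          have := chi_le_one p (R / 2) y
          have := chi_nonneg (z 0) ρ y
          have := chi_le_one (z 0) ρ y
          constructor <;> linarith
        rw [abs_mul]
        calc |chi p (R / 2) y - chi (z 0) ρ y| * |nl lam (u y)| ≤ 1 * |nl lam (u y)| := by
              gcongr
          _ ≤ (Λ + 1) * C3 ^ 2 * (k + 1) *
              (1 + ∑ l ∈ Finset.range k, U (mu l) (z l) y ^ 2) := by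
            rw [one_mul]
            exact h3
          _ = C4 * ((∑ l ∈ Finset.range k, g l y) + b y) := by
            rw [hC4, abs_of_nonneg hΛ]
            simp only [hg, hb, indicator_of_mem hy1, indicator_of_mem hy2]
            ring
      · push Not at h2
        have h3 : 2 * ρ ≤ ‖y - z 0‖ := by
          have h4 := norm_add_le (y - z 0) (z 0 - p)
          have e : y - z 0 + (z 0 - p) = y - p := by abel
          rw [e] at h4
          linarith
        rw [chi_eq_zero hρ h3, chi_eq_zero (by positivity) (by linarith)]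
        simpa using hR0
  -- the potentials
  have hJ : ∀ (m : ℕ) (B G : ℝ), 0 ≤ B → 0 ≤ G → J m b x ≤ ENNReal.ofReal B →
      (∀ l < k, J m (g l) x ≤ ENNReal.ofReal G) →
      J m (fun y => |(chi p (R / 2) y - chi (z 0) ρ y) * nl lam (u y)|) x
        ≤ ENNReal.ofReal (C4 * (k * G + B)) := by
    intro m B G hB0 hG0 hJb hJg
    refine (J_mono hpt x).trans ?_
    rw [J_const_mul _ hC40, ENNReal.ofReal_mul hC40]
    gcongr
    refine (J_add_le _ _ hbm x).trans ?_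
    rw [ENNReal.ofReal_add (by positivity) hB0]
    refine add_le_add ?_ hJb
    refine (FE0_J_sum _ g hgm x).trans ?_
    refine (Finset.sum_le_sum (fun l hl => hJg l (Finset.mem_range.1 hl))).trans ?_
    rw [Finset.sum_const, Finset.card_range, ENNReal.ofReal_mul (by positivity), nsmul_eq_mul]
    simp
  have h1 : ∀ l < k, _ := fun l hl => hU k (mu 0) (mu l) ρ (z 0) (z l) x (hconf.hmu l hl)
    (hmul l hl) hρ hρ1 hrho.ge (hgap l hl) hx
  constructor
  · refine (hJ 4 CB (CU * 32 ^ (8 * k)) hCB.le (by positivity) ?_ (fun l hl => (h1 l hl).1)).trans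
      (ENNReal.ofReal_le_ofReal ?_)
    · refine (hB 4 x p R 1 (Or.inl rfl) hR (by norm_num)).trans (ENNReal.ofReal_le_ofReal ?_)
      have : R ^ (6 - 4) ≤ 1 := pow_le_one₀ hR.le hR1
      nlinarith
    · rw [hCF]
      nlinarith
  · refine (hJ 5 (CB / ρ) (CU * 32 ^ (8 * k) / ρ) (by positivity) (by positivity) ?_
      (fun l hl => (h1 l hl).2)).trans (ENNReal.ofReal_le_ofReal ?_)
    · refine (hB 5 x p R 1 (Or.inr rfl) hR (by norm_num)).trans (ENNReal.ofReal_le_ofReal ?_)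
      have h3 : R ^ (6 - 5) ≤ 1 := pow_le_one₀ hR.le hR1
      rw [le_div_iff₀ hρ]
      have h5 : 0 < R ^ (6 - 5) := by positivity
      have h4 : R ^ (6 - 5) * ρ ≤ 1 := by nlinarith
      nlinarith
    · rw [hCF, le_div_iff₀ hρ]
      have : C4 * (k * (CU * 32 ^ (8 * k) / ρ) + CB / ρ) * ρ
          = C4 * (k * (CU * 32 ^ (8 * k)) + CB) := by field_simp
      rw [this]
      nlinarith

end Pool.Helper4.BT
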