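import Pool.Agent.Helper17.BT.Kernel
import Pool.Agent.Helper62.BT.LAP2
import Pool.Agent.Helper83.BT.CHI

/-!
# Block REP: local representation of a function by a Newtonian potential

`repr`: near `p`, a `C²` function `ψ` is the Newtonian potential of the cut off of `-Δ ψ`, up to an
error `h` controlled by the `L¹` norm of `ψ`.
-/

namespace Pool.Helper4.BT
open MeasureTheory Metric Set Laplacian InnerProductSpace

/-- Convolution with a `C¹` kernel with compact support. -/
theorem REP_conv (f W : E → ℝ) (hf : Continuous f) (hfc : HasCompactSupport f)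
    (hW : ContDiff ℝ 1 W) (hWc : HasCompactSupport W) (M : ℝ)
    (h0 : ∀ z, |W z| ≤ M) (h1 : ∀ z, ‖fderiv ℝ W z‖ ≤ M) (x : E) :
    DifferentiableAt ℝ (fun x => ∫ y, f y * W (x - y)) x ∧
      |∫ y, f y * W (x - y)| ≤ M * ∫ y, |f y| ∧
      ‖fderiv ℝ (fun x => ∫ y, f y * W (x - y)) x‖ ≤ M * ∫ y, |f y| := by
  have hfi : Integrable f := hf.integrable_of_hasCompactSupport hfc
  have hd := hWc.hasFDerivAt_convolution_right (ContinuousLinearMap.mul ℝ ℝ)
    (μ := (volume : Measure E)) hfi.locallyIntegrable hW x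
  have hd' : HasFDerivAt (fun x => ∫ y, f y * W (x - y))
      (∫ t, (ContinuousLinearMap.mul ℝ ℝ).precompR E (f t) (fderiv ℝ W (x - t))) x := hd
  have hM : 0 ≤ M := (abs_nonneg _).trans (h0 0)
  refine ⟨hd'.differentiableAt, ?_, ?_⟩
  · calc |∫ y, f y * W (x - y)| ≤ ∫ y, |f y * W (x - y)| := abs_integral_le_integral_abs
      _ ≤ ∫ y, M * |f y| := by
        apply integral_mono_of_nonneg
        · exact Filter.Eventually.of_forall (fun y => abs_nonneg _)
        · exact hfi.abs.const_mul M
        · refine Filter.Eventually.of_forall (fun y => ?_)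
          simp only [abs_mul]
          rw [mul_comm]
          exact mul_le_mul_of_nonneg_right (h0 _) (abs_nonneg _)
      _ = M * ∫ y, |f y| := integral_const_mul _ _
  · rw [hd'.fderiv]
    calc ‖∫ t, (ContinuousLinearMap.mul ℝ ℝ).precompR E (f t) (fderiv ℝ W (x - t))‖
        ≤ ∫ t, ‖(ContinuousLinearMap.mul ℝ ℝ).precompR E (f t) (fderiv ℝ W (x - t))‖ :=
          norm_integral_le_integral_norm _
      _ ≤ ∫ y, M * |f y| := by
        apply integral_mono_of_nonneg
        · exact Filter.Eventually.of_forall (fun y => norm_nonneg _)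
        · exact hfi.abs.const_mul M
        · refine Filter.Eventually.of_forall (fun y => ?_)
          have : (ContinuousLinearMap.mul ℝ ℝ).precompR E (f y) (fderiv ℝ W (x - y))
              = f y • fderiv ℝ W (x - y) := by
            ext v
            rfl
          simp only [this, norm_smul, Real.norm_eq_abs]
          rw [mul_comm]
          exact mul_le_mul_of_nonneg_right (h1 _) (abs_nonneg _)
      _ = M * ∫ y, |f y| := integral_const_mul _ _

/-- The second partial derivatives and the Laplacian. -/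
theorem REP_lap (f : E → ℝ) (x : E) :
    (Δ f) x = ∑ i : Fin 6, fderiv ℝ (fderiv ℝ f) x (EuclideanSpace.single i 1)
      (EuclideanSpace.single i 1) := by
  rw [laplacian_eq_iteratedFDeriv_orthonormalBasis f (EuclideanSpace.basisFun (Fin 6) ℝ)]
  simp only [iteratedFDeriv_two_apply]
  simp

/-- The Laplacian of a `C²` function is continuous. -/
theorem REP_lap_cont {f : E → ℝ} (hf : ContDiff ℝ 2 f) : Continuous (Δ f) := by
  have : (Δ f) = fun x => ∑ i : Fin 6, fderiv ℝ (fderiv ℝ f) x (EuclideanSpace.single i 1)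
      (EuclideanSpace.single i 1) := funext (REP_lap f)
  rw [this]
  have h1 : ContDiff ℝ 1 (fderiv ℝ f) := hf.fderiv_right (by norm_num)
  have h2 : Continuous (fderiv ℝ (fderiv ℝ f)) := h1.continuous_fderiv (by norm_num)
  fun_prop

/-- `‖x‖ ^ (-4)` is locally integrable in dimension six. -/
theorem REP_Gam_loc : LocallyIntegrable Gam (volume : Measure E) := by
  rw [locallyIntegrable_iff]
  intro K hK
  obtain ⟨r, hr⟩ := hK.isBounded.subset_ball 0
  refine IntegrableOn.mono_set ?_ hr
  have := (integrableOn_fun_norm_addHaar (E := E) (μ := volume) (F := ℝ)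
    (f := fun t => cG * (t ^ 4)⁻¹) (r := r)).2 ?_
  · exact this
  · simp only [finrank_euclideanSpace, Fintype.card_fin, smul_eq_mul]
    have h2 : IntegrableOn (fun y : ℝ => cG * y) (Ioo 0 r) := by
      apply (Continuous.integrableOn_Icc (by fun_prop : Continuous fun y : ℝ => cG * y)
        (a := 0) (b := r)).mono_set Ioo_subset_Icc_self
    refine h2.congr_fun (fun y hy => ?_) measurableSet_Ioo
    have : y ≠ 0 := hy.1.ne'
    field_simp

/-- The integrand of the Newtonian potential of a continuous function with compact support is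
integrable. -/
theorem REP_Gam_mul {f : E → ℝ} (hf : Continuous f) (hfc : HasCompactSupport f) (x : E) :
    Integrable (fun y => Gam (x - y) * f y) (volume : Measure E) := by
  have h1 : Integrable (fun z => Gam z * f (x - z)) (volume : Measure E) := by
    have hc : HasCompactSupport (fun z => f (x - z)) := by
      exact hfc.comp_homeomorph (Homeomorph.subLeft x)
    exact REP_Gam_loc.integrable_smul_right_of_hasCompactSupport (hf.comp (by fun_prop)) hc
  have h2 := h1.comp_sub_left x
  simpa using h2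

/-- The truncated kernel. -/
noncomputable def REP_W (R : ℝ) (z : E) : ℝ := (chi 0 (2 * R) z - chi 0 (R / 8) z) * Gam z

theorem REP_W_contDiff {R : ℝ} (hR : 0 < R) (n : ℕ∞) : ContDiff ℝ n (REP_W R) := by
  rw [contDiff_iff_contDiffAt]
  intro z
  by_cases hz : z = 0
  · subst hz
    have : REP_W R =ᶠ[nhds 0] fun _ => 0 := by
      filter_upwards [ball_mem_nhds (0 : E) (by positivity : 0 < R / 8)] with z hz
      have hz' : ‖z‖ < R / 8 := by simpa using hz
      rw [REP_W, chi_eq_one (by positivity) (by simp; linarith),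
        chi_eq_one (by positivity) (by simp; linarith)]
      simp
    exact contDiffAt_const.congr_of_eventuallyEq this
  · have h1 : ContDiffAt ℝ n (fun z : E => ‖z‖ ^ 2) z := (contDiff_norm_sq ℝ).contDiffAt
    have h2 : ContDiffAt ℝ n (fun z : E => cG * ((‖z‖ ^ 2) ^ 2)⁻¹) z :=
      contDiffAt_const.mul ((h1.pow 2).inv (by positivity))
    have h3 : ContDiffAt ℝ n Gam z := by
      convert h2 using 2 with w
      rw [Gam]
      ring
    exact ((contDiff_chi 0 (2 * R)).contDiffAt.sub (contDiff_chi 0 (R / 8)).contDiffAt).mul h3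

theorem REP_W_compact {R : ℝ} (hR : 0 < R) : HasCompactSupport (REP_W R) :=
  ((hasCompactSupport_chi 0 (by positivity)).sub (hasCompactSupport_chi 0 (by positivity))).mul_right

theorem REP_W_eq {R : ℝ} (hR : 0 < R) {z : E} (h1 : R / 4 ≤ ‖z‖) (h2 : ‖z‖ ≤ 2 * R) :
    REP_W R z = Gam z := by
  rw [REP_W, chi_eq_one (by positivity) (by simpa using h2),
    chi_eq_zero (by positivity) (by simp; linarith)]
  ring

theorem REP_lap_chi_eq_zero {z : E} {ρ : ℝ} (hρ : 0 < ρ) {x : E}
    (hx : ‖x - z‖ < ρ ∨ 2 * ρ < ‖x - z‖) : fderiv ℝ (fderiv ℝ (chi z ρ)) x = 0 := by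
  have : fderiv ℝ (chi z ρ) =ᶠ[nhds x] fun _ => 0 := by
    have ho : IsOpen {y : E | ‖y - z‖ < ρ ∨ 2 * ρ < ‖y - z‖} := by
      apply IsOpen.union
      · exact isOpen_lt (f := fun y : E => ‖y - z‖) (g := fun _ => ρ) (by fun_prop) (by fun_prop)
      · exact isOpen_lt (f := fun _ : E => 2 * ρ) (g := fun y => ‖y - z‖) (by fun_prop)
          (by fun_prop)
    filter_upwards [ho.mem_nhds hx] with y hy
    exact fderiv_chi_eq_zero hρ hy
  rw [this.fderiv_eq]
  simp

/-- The integration by parts. -/
theorem REP_ibp {W η ψ : E → ℝ} (hW : ContDiff ℝ 2 W) (hη : ContDiff ℝ 2 η)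
    (hηc : HasCompactSupport η) (hψ : ContDiff ℝ 1 ψ) (x v : E) :
    ∫ y, W (x - y) * fderiv ℝ η y v * fderiv ℝ ψ y v
      = ∫ y, (fderiv ℝ W (x - y) v * fderiv ℝ η y v
          - W (x - y) * fderiv ℝ (fderiv ℝ η) y v v) * ψ y := by
  have hη1 : ContDiff ℝ 1 (fderiv ℝ η) := hη.fderiv_right (by norm_num)
  have hηv : ContDiff ℝ 1 (fun y => fderiv ℝ η y v) := hη1.clm_apply contDiff_const
  have hW' : ContDiff ℝ 2 (fun y => W (x - y)) := hW.comp (contDiff_const.sub contDiff_id)
  have hW1 : ContDiff ℝ 1 (fderiv ℝ W) := hW.fderiv_right (by norm_num)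
  have hf : ContDiff ℝ 1 (fun y => W (x - y) * fderiv ℝ η y v) :=
    (hW'.of_le (by norm_num)).mul hηv
  have hηvc : HasCompactSupport (fun y => fderiv ℝ η y v) := hηc.fderiv_apply (𝕜 := ℝ) v
  have hηvc2 : HasCompactSupport (fun y => fderiv ℝ (fun y => fderiv ℝ η y v) y v) :=
    hηvc.fderiv_apply (𝕜 := ℝ) v
  have hfc : HasCompactSupport (fun y => W (x - y) * fderiv ℝ η y v) := hηvc.mul_left
  have hder : ∀ y, fderiv ℝ (fun y => W (x - y) * fderiv ℝ η y v) y v
      = -(fderiv ℝ W (x - y) v) * fderiv ℝ η y v + W (x - y) * fderiv ℝ (fderiv ℝ η) y v v := by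
    intro y
    have e1 : HasFDerivAt (fun y => W (x - y)) (-(fderiv ℝ W (x - y))) y := by
      have h0 : HasFDerivAt (fun y : E => x - y) (-(ContinuousLinearMap.id ℝ E)) y := by
        simpa using (hasFDerivAt_id y).const_sub x
      have h1 : HasFDerivAt W (fderiv ℝ W (x - y)) (x - y) :=
        (hW.differentiable (by norm_num) (x - y)).hasFDerivAt
      refine (h1.comp y h0).congr_fderiv ?_
      ext w
      simp
    have e2 : HasFDerivAt (fun y => fderiv ℝ η y v) ((fderiv ℝ (fderiv ℝ η) y).flip v) y := by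
      have h1 : HasFDerivAt (fderiv ℝ η) (fderiv ℝ (fderiv ℝ η) y) y :=
        (hη1.differentiable (by norm_num) y).hasFDerivAt
      have h2 := h1.clm_apply (hasFDerivAt_const v y)
      refine h2.congr_fderiv ?_
      ext w
      simp
    have e3 : HasFDerivAt (fun y => W (x - y) * fderiv ℝ η y v) _ y := e1.mul e2
    rw [e3.fderiv]
    simp
    ring
  rw [integral_mul_fderiv_eq_neg_fderiv_mul_of_integrable (μ := (volume : Measure E))
    (f := fun y => W (x - y) * fderiv ℝ η y v) (g := ψ) (v := v)]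
  · rw [← integral_neg]
    congr 1
    ext y
    rw [hder y]
    ring
  · have hc : Continuous (fun y => fderiv ℝ (fun y => W (x - y) * fderiv ℝ η y v) y v) := by
      have := hf.continuous_fderiv (by norm_num)
      fun_prop
    exact (hc.mul hψ.continuous).integrable_of_hasCompactSupport ((hfc.fderiv_apply (𝕜 := ℝ) v).mul_right)
  · have hc : Continuous (fun y => fderiv ℝ ψ y v) := by
      have := hψ.continuous_fderiv (by norm_num)
      fun_prop
    exact (hf.continuous.mul hc).integrable_of_hasCompactSupport hfc.mul_right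
  · exact (hf.continuous.mul hψ.continuous).integrable_of_hasCompactSupport hfc.mul_right
  · intro y _
    exact hf.differentiable (by norm_num) y
  · intro y _
    exact hψ.differentiable (by norm_num) y

/-- The identity behind the representation. -/
theorem REP_main {R : ℝ} (hR : 0 < R) (p : E) (ψ : E → ℝ) (hψ : ContDiff ℝ 2 ψ) {x : E}
    (hx : x ∈ ball p (R / 4)) :
    ψ x = N (fun y => chi p (R / 2) y * (-(Δ ψ) y)) x +
      ((∑ i : Fin 6, ∫ y, (-2 * ψ y * fderiv ℝ (chi p (R / 2)) y (EuclideanSpace.single i 1)) *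
          fderiv ℝ (REP_W R) (x - y) (EuclideanSpace.single i 1)) +
        ∫ y, (ψ y * (Δ (chi p (R / 2))) y) * REP_W R (x - y)) := by
  set η := chi p (R / 2) with hη
  set W := REP_W R with hW
  have hR2 : 0 < R / 2 := by positivity
  have hxp : ‖x - p‖ < R / 4 := by simpa [dist_eq_norm] using hx
  have hηc : HasCompactSupport η := hasCompactSupport_chi p hR2
  have hη2 : ContDiff ℝ 2 η := contDiff_chi p (R / 2)
  have hη3 : ContDiff ℝ 1 (fderiv ℝ η) := hη2.fderiv_right (by norm_num)
  have hW2 : ContDiff ℝ 2 W := REP_W_contDiff hR 2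
  have hW1 : ContDiff ℝ 1 (fderiv ℝ W) := hW2.fderiv_right (by norm_num)
  have hψ1 : ContDiff ℝ 1 ψ := hψ.of_le (by norm_num)
  have cψ := hψ.continuous
  have cη := hη2.continuous
  have cW := hW2.continuous
  have cη1 := hη2.continuous_fderiv (by norm_num)
  have cη2 := hη3.continuous_fderiv (by norm_num)
  have cψ1 := hψ.continuous_fderiv (by norm_num)
  have cW1 := hW2.continuous_fderiv (by norm_num)
  have cLψ := REP_lap_cont hψ
  have cLη := REP_lap_cont hη2
  have hLηc : HasCompactSupport (Δ η) := by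
    have h1 : HasCompactSupport (fderiv ℝ (fderiv ℝ η)) :=
      HasCompactSupport.fderiv (𝕜 := ℝ) (HasCompactSupport.fderiv (𝕜 := ℝ) hηc)
    refine h1.mono (fun y hy => ?_)
    rw [Function.mem_support] at hy ⊢
    intro h0
    apply hy
    rw [REP_lap, h0]
    simp
  have hη1c : HasCompactSupport (fderiv ℝ η) := HasCompactSupport.fderiv (𝕜 := ℝ) hηc
  -- the product
  have hφ2 : ContDiff ℝ 2 (fun y => η y * ψ y) := hη2.mul hψ
  have hφc : HasCompactSupport (fun y => η y * ψ y) := hηc.mul_right
  have key := N_neg_lap (fun y => η y * ψ y) hφ2 hφc x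
  have hηx : η x = 1 := chi_eq_one hR2 (by linarith)
  simp only [hηx, one_mul] at key
  set g : E → ℝ := fun y => -(ψ y * (Δ η) y) - 2 * ∑ i : Fin 6,
      fderiv ℝ η y (EuclideanSpace.single i 1) * fderiv ℝ ψ y (EuclideanSpace.single i 1) with hg
  have hdec : ∀ y, -(Δ (fun y => η y * ψ y)) y = η y * (-(Δ ψ) y) + g y := by
    intro y
    rw [lap_mul η ψ y hη2.contDiffAt hψ.contDiffAt, hg]
    ring
  have cg : Continuous g := by
    rw [hg]
    fun_prop
  have hgc : HasCompactSupport g := by
    have h1 : HasCompactSupport (fun y => ‖(Δ η) y‖ + ‖fderiv ℝ η y‖) := hLηc.norm.add hη1c.norm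
    refine h1.mono (fun y hy => ?_)
    rw [Function.mem_support] at hy ⊢
    intro h0
    apply hy
    have h2 : ‖(Δ η) y‖ = 0 := by
      have := norm_nonneg ((Δ η) y)
      have := norm_nonneg (fderiv ℝ η y)
      linarith
    have h3 : ‖fderiv ℝ η y‖ = 0 := by
      have := norm_nonneg ((Δ η) y)
      have := norm_nonneg (fderiv ℝ η y)
      linarith
    simp [hg, norm_eq_zero.1 h2, norm_eq_zero.1 h3]
  have hgW : ∀ y, Gam (x - y) * g y = W (x - y) * g y := by
    intro y
    by_cases hy : ‖y - p‖ < R / 2 ∨ 2 * (R / 2) < ‖y - p‖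
    · have : g y = 0 := by
        simp [hg, REP_lap, hη, REP_lap_chi_eq_zero hR2 hy, fderiv_chi_eq_zero hR2 hy]
      rw [this]
      simp
    · push Not at hy
      have h1 : ‖y - p‖ ≤ ‖x - y‖ + ‖x - p‖ := by
        have := norm_sub_le (x - p) (x - y)
        have e : x - p - (x - y) = y - p := by abel
        rw [e] at this
        linarith
      have h2 : ‖x - y‖ ≤ ‖x - p‖ + ‖y - p‖ := by
        have := norm_sub_le (x - p) (y - p)
        have e : x - p - (y - p) = x - y := by abel
        rw [e] at this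
        linarith
      rw [hW, REP_W_eq hR (by linarith [hy.1]) (by linarith [hy.2])]
  have hN : N (fun y => -(Δ (fun y => η y * ψ y)) y) x
      = N (fun y => η y * (-(Δ ψ) y)) x + ∫ y, W (x - y) * g y := by
    have e1 : N (fun y => -(Δ (fun y => η y * ψ y)) y) x
        = ∫ y, (Gam (x - y) * (η y * (-(Δ ψ) y)) + W (x - y) * g y) := by
      rw [N]
      congr 1
      ext y
      rw [hdec y, mul_add, hgW y]
    rw [e1, integral_add]
    · rfl
    · exact REP_Gam_mul (by fun_prop) hηc.mul_right x
    · exact Continuous.integrable_of_hasCompactSupport (by fun_prop) hgc.mul_left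
  rw [hN] at key
  rw [← key]
  congr 1
  -- the second part
  have iW : ∀ i : Fin 6, Integrable (fun y => W (x - y) *
      fderiv ℝ η y (EuclideanSpace.single i 1) * fderiv ℝ ψ y (EuclideanSpace.single i 1)) := by
    intro i
    exact Continuous.integrable_of_hasCompactSupport (by fun_prop)
      ((hηc.fderiv_apply (𝕜 := ℝ) (EuclideanSpace.single i 1)).mul_left.mul_right)
  have iL : Integrable (fun y => W (x - y) * (ψ y * (Δ η) y)) :=
    Continuous.integrable_of_hasCompactSupport (by fun_prop) hLηc.mul_left.mul_left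
  have s1 : ∫ y, W (x - y) * g y = -(∫ y, W (x - y) * (ψ y * (Δ η) y))
      - 2 * ∑ i : Fin 6, ∫ y, W (x - y) * fderiv ℝ η y (EuclideanSpace.single i 1) *
        fderiv ℝ ψ y (EuclideanSpace.single i 1) := by
    have iS : Integrable (fun y => ∑ i : Fin 6, W (x - y) *
        fderiv ℝ η y (EuclideanSpace.single i 1) * fderiv ℝ ψ y (EuclideanSpace.single i 1)) :=
      integrable_finsetSum _ (fun i _ => iW i)
    have e : ∀ y, W (x - y) * g y = -(W (x - y) * (ψ y * (Δ η) y)) - 2 * ∑ i : Fin 6,
        W (x - y) * fderiv ℝ η y (EuclideanSpace.single i 1) *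
          fderiv ℝ ψ y (EuclideanSpace.single i 1) := by
      intro y
      simp only [hg, mul_sub, Finset.mul_sum]
      congr 1
      · ring
      · exact Finset.sum_congr rfl (fun i _ => by ring)
    calc ∫ y, W (x - y) * g y = ∫ y, (-(W (x - y) * (ψ y * (Δ η) y)) - 2 * ∑ i : Fin 6,
        W (x - y) * fderiv ℝ η y (EuclideanSpace.single i 1) *
          fderiv ℝ ψ y (EuclideanSpace.single i 1)) := by
          congr 1
          ext y
          exact e y
      _ = _ := by
        have iLn : Integrable (fun y => -(W (x - y) * (ψ y * (Δ η) y))) := iL.neg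
        rw [integral_sub iLn (iS.const_mul 2), integral_neg, integral_const_mul,
          integral_finsetSum _ (fun i _ => iW i)]
  have s2 : ∀ i : Fin 6, ∫ y, W (x - y) * fderiv ℝ η y (EuclideanSpace.single i 1) *
        fderiv ℝ ψ y (EuclideanSpace.single i 1)
      = -(1 / 2) * (∫ y, (-2 * ψ y * fderiv ℝ η y (EuclideanSpace.single i 1)) *
          fderiv ℝ W (x - y) (EuclideanSpace.single i 1))
        - ∫ y, W (x - y) * (ψ y * fderiv ℝ (fderiv ℝ η) y (EuclideanSpace.single i 1)
          (EuclideanSpace.single i 1)) := by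
    intro i
    rw [REP_ibp hW2 hη2 hηc hψ1 x (EuclideanSpace.single i 1), ← integral_const_mul,
      ← integral_sub]
    · congr 1
      ext y
      ring
    · refine Integrable.const_mul (Continuous.integrable_of_hasCompactSupport (by fun_prop) ?_) _
      exact (hηc.fderiv_apply (𝕜 := ℝ) (EuclideanSpace.single i 1)).mul_left.mul_right
    · refine Continuous.integrable_of_hasCompactSupport (by fun_prop) ?_
      have h1 : HasCompactSupport (fderiv ℝ (fderiv ℝ η)) :=
        HasCompactSupport.fderiv (𝕜 := ℝ) hη1c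
      have h2 : HasCompactSupport (fun y => fderiv ℝ (fderiv ℝ η) y (EuclideanSpace.single i 1)
          (EuclideanSpace.single i 1)) := by
        refine h1.mono (fun y hy => ?_)
        rw [Function.mem_support] at hy ⊢
        intro h0
        apply hy
        rw [h0]
        simp
      exact h2.mul_left.mul_left
  have s3 : ∑ i : Fin 6, ∫ y, W (x - y) * (ψ y * fderiv ℝ (fderiv ℝ η) y
      (EuclideanSpace.single i 1) (EuclideanSpace.single i 1))
      = ∫ y, W (x - y) * (ψ y * (Δ η) y) := by
    rw [← integral_finsetSum]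
    · congr 1
      ext y
      rw [REP_lap, Finset.mul_sum, Finset.mul_sum]
    · intro i _
      refine Continuous.integrable_of_hasCompactSupport (by fun_prop) ?_
      have h1 : HasCompactSupport (fderiv ℝ (fderiv ℝ η)) :=
        HasCompactSupport.fderiv (𝕜 := ℝ) hη1c
      have h2 : HasCompactSupport (fun y => fderiv ℝ (fderiv ℝ η) y (EuclideanSpace.single i 1)
          (EuclideanSpace.single i 1)) := by
        refine h1.mono (fun y hy => ?_)
        rw [Function.mem_support] at hy ⊢
        intro h0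
        apply hy
        rw [h0]
        simp
      exact h2.mul_left.mul_left
  have s4 : ∫ y, (ψ y * (Δ η) y) * W (x - y) = ∫ y, W (x - y) * (ψ y * (Δ η) y) := by
    congr 1
    ext y
    ring
  rw [s1, s4, Finset.sum_congr rfl (fun i _ => s2 i), Finset.sum_sub_distrib, s3,
    ← Finset.mul_sum]
  ring

theorem repr : ∀ R : ℝ, 0 < R → ∃ C : ℝ, 0 < C ∧ ∀ (p : E) (ψ : E → ℝ), ContDiff ℝ 2 ψ →
    ∃ h : E → ℝ,
      (∀ x ∈ ball p (R / 4), ψ x = N (fun y => chi p (R / 2) y * (-(Δ ψ) y)) x + h x) ∧
      ∀ x ∈ ball p (R / 4), DifferentiableAt ℝ h x ∧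
        |h x| ≤ C * ∫ y in closedBall p R, |ψ y| ∧
        ‖fderiv ℝ h x‖ ≤ C * ∫ y in closedBall p R, |ψ y| := by
  intro R hR
  have hR2 : 0 < R / 2 := by positivity
  obtain ⟨C₁, hC₁, hb⟩ := exists_fderiv_chi_le
  have hW3 : ContDiff ℝ 3 (REP_W R) := REP_W_contDiff hR 3
  have hWc := REP_W_compact hR
  have hW1 : ContDiff ℝ 1 (REP_W R) := hW3.of_le (by norm_num)
  have hWf : ContDiff ℝ 1 (fderiv ℝ (REP_W R)) := hW3.fderiv_right (by norm_num)
  have hWi : ∀ i : Fin 6, ContDiff ℝ 1 (fun z => fderiv ℝ (REP_W R) z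
      (EuclideanSpace.single i 1)) := fun i => hWf.clm_apply contDiff_const
  have hWic : ∀ i : Fin 6, HasCompactSupport (fun z => fderiv ℝ (REP_W R) z
      (EuclideanSpace.single i 1)) := fun i => hWc.fderiv_apply (𝕜 := ℝ) _
  -- a common bound
  have hbd : ∀ F : E → ℝ, ContDiff ℝ 1 F → HasCompactSupport F →
      ∃ M : ℝ, (∀ z, |F z| ≤ M) ∧ ∀ z, ‖fderiv ℝ F z‖ ≤ M := by
    intro F hF hFc
    obtain ⟨M1, h1⟩ := hF.continuous.bounded_above_of_compact_support hFc
    obtain ⟨M2, h2⟩ := (hF.continuous_fderiv (by norm_num)).bounded_above_of_compact_support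
      (HasCompactSupport.fderiv (𝕜 := ℝ) hFc)
    exact ⟨max M1 M2, fun z => (h1 z).trans (le_max_left _ _),
      fun z => (h2 z).trans (le_max_right _ _)⟩
  obtain ⟨M0, hM0, hM0'⟩ := hbd _ hW1 hWc
  choose M hM hM' using fun i => hbd _ (hWi i) (hWic i)
  have hM0p : 0 ≤ M0 := (abs_nonneg _).trans (hM0 0)
  have hMp : ∀ i, 0 ≤ M i := fun i => (abs_nonneg _).trans (hM i 0)
  set K1 := C₁ / (R / 2) with hK1
  set K2 := C₁ / (R / 2) ^ 2 with hK2
  have hK1p : 0 < K1 := by positivity
  have hK2p : 0 < K2 := by positivity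
  refine ⟨(∑ i, M i * (2 * K1)) + M0 * K2 + 1, by
    have : 0 ≤ ∑ i, M i * (2 * K1) := Finset.sum_nonneg (fun i _ => mul_nonneg (hMp i)
      (by positivity))
    positivity, ?_⟩
  intro p ψ hψ
  set η := chi p (R / 2) with hη
  have hηc : HasCompactSupport η := hasCompactSupport_chi p hR2
  have hη2 : ContDiff ℝ 2 η := contDiff_chi p (R / 2)
  have cη1 := hη2.continuous_fderiv (by norm_num)
  have cLη := REP_lap_cont hη2
  have cψ := hψ.continuous
  have hη1c : HasCompactSupport (fderiv ℝ η) := HasCompactSupport.fderiv (𝕜 := ℝ) hηc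
  have hLηc : HasCompactSupport (Δ η) := by
    have h1 : HasCompactSupport (fderiv ℝ (fderiv ℝ η)) :=
      HasCompactSupport.fderiv (𝕜 := ℝ) hη1c
    refine h1.mono (fun y hy => ?_)
    rw [Function.mem_support] at hy ⊢
    intro h0
    apply hy
    rw [REP_lap, h0]
    simp
  set I := ∫ y in closedBall p R, |ψ y| with hI
  have hIp : 0 ≤ I := integral_nonneg (fun y => abs_nonneg _)
  -- L1 bound
  have hL1 : ∀ (f : E → ℝ) (K : ℝ), 0 ≤ K → (∀ y, ‖y - p‖ ≤ R → |f y| ≤ K * |ψ y|) →
      (∀ y, R < ‖y - p‖ → f y = 0) → ∫ y, |f y| ≤ K * I := by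
    intro f K hK hf1 hf2
    have : K * I = ∫ y, (closedBall p R).indicator (fun y => K * |ψ y|) y := by
      rw [integral_indicator isClosed_closedBall.measurableSet, integral_const_mul]
    rw [this]
    apply integral_mono_of_nonneg
    · exact Filter.Eventually.of_forall (fun y => abs_nonneg _)
    · apply IntegrableOn.integrable_indicator _ isClosed_closedBall.measurableSet
      exact (Continuous.continuousOn (by fun_prop)).integrableOn_compact (isCompact_closedBall p R)
    · refine Filter.Eventually.of_forall (fun y => ?_)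
      by_cases hy : ‖y - p‖ ≤ R
      · have hy' : y ∈ closedBall p R := by simpa [dist_eq_norm] using hy
        rw [indicator_of_mem hy']
        exact hf1 y hy
      · push Not at hy
        simp only [hf2 y hy, abs_zero]
        exact indicator_nonneg (fun y _ => mul_nonneg hK (abs_nonneg _)) y
  have hfi : ∀ i : Fin 6, ∫ y, |-2 * ψ y * fderiv ℝ η y (EuclideanSpace.single i 1)|
      ≤ (2 * K1) * I := by
    intro i
    apply hL1 _ _ (by positivity)
    · intro y _
      have h1 : |fderiv ℝ η y (EuclideanSpace.single i 1)| ≤ K1 := by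
        have h2 := (fderiv ℝ η y).le_opNorm (EuclideanSpace.single i 1)
        have h3 := (hb p (R / 2) y hR2).1
        simp at h2
        exact h2.trans h3
      rw [abs_mul, abs_mul, abs_neg, abs_two]
      nlinarith [abs_nonneg (ψ y), mul_le_mul_of_nonneg_left h1 (abs_nonneg (ψ y))]
    · intro y hy
      rw [hη, fderiv_chi_eq_zero hR2 (Or.inr (by linarith))]
      simp
  have hfL : ∫ y, |ψ y * (Δ η) y| ≤ K2 * I := by
    apply hL1 _ _ (by positivity)
    · intro y _
      have h3 := (hb p (R / 2) y hR2).2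
      rw [abs_mul]
      nlinarith [abs_nonneg (ψ y), mul_le_mul_of_nonneg_left h3 (abs_nonneg (ψ y))]
    · intro y hy
      rw [REP_lap, hη, REP_lap_chi_eq_zero hR2 (Or.inr (by linarith))]
      simp
  have hci : ∀ (i : Fin 6) (x : E), _ := fun i x => REP_conv
    (fun y => -2 * ψ y * fderiv ℝ η y (EuclideanSpace.single i 1)) _ (by fun_prop)
    ((hηc.fderiv_apply (𝕜 := ℝ) (EuclideanSpace.single i 1)).mul_left) (hWi i) (hWic i) (M i)
    (hM i) (hM' i) x
  have hcL : ∀ (x : E), _ := fun x => REP_conv (fun y => ψ y * (Δ η) y) _ (by fun_prop)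
    (hLηc.mul_left) hW1 hWc M0 hM0 hM0' x
  refine ⟨fun x => (∑ i : Fin 6, ∫ y, (-2 * ψ y * fderiv ℝ η y (EuclideanSpace.single i 1)) *
          fderiv ℝ (REP_W R) (x - y) (EuclideanSpace.single i 1)) +
        ∫ y, (ψ y * (Δ η) y) * REP_W R (x - y), ?_, ?_⟩
  · intro x hx
    exact REP_main hR p ψ hψ hx
  · intro x _
    have hd : HasFDerivAt (fun x => (∑ i : Fin 6, ∫ y, (-2 * ψ y *
        fderiv ℝ η y (EuclideanSpace.single i 1)) *
          fderiv ℝ (REP_W R) (x - y) (EuclideanSpace.single i 1)) +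
        ∫ y, (ψ y * (Δ η) y) * REP_W R (x - y)) ((∑ i : Fin 6, fderiv ℝ (fun x => ∫ y, (-2 * ψ y *
        fderiv ℝ η y (EuclideanSpace.single i 1)) *
          fderiv ℝ (REP_W R) (x - y) (EuclideanSpace.single i 1)) x) +
        fderiv ℝ (fun x => ∫ y, (ψ y * (Δ η) y) * REP_W R (x - y)) x) x := by
      apply HasFDerivAt.add
      · apply HasFDerivAt.fun_sum
        intro i _
        exact (hci i x).1.hasFDerivAt
      · exact (hcL x).1.hasFDerivAt
    have hsum : (∑ i : Fin 6, M i * ((2 * K1) * I)) + M0 * (K2 * I)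
        ≤ ((∑ i, M i * (2 * K1)) + M0 * K2 + 1) * I := by
      have e : (∑ i : Fin 6, M i * ((2 * K1) * I)) = (∑ i, M i * (2 * K1)) * I := by
        rw [Finset.sum_mul]
        exact Finset.sum_congr rfl (fun i _ => by ring)
      rw [e]
      nlinarith
    refine ⟨hd.differentiableAt, ?_, ?_⟩
    · refine le_trans ?_ hsum
      refine (abs_add_le _ _).trans (add_le_add ?_ ?_)
      · refine (Finset.abs_sum_le_sum_abs _ _).trans (Finset.sum_le_sum (fun i _ => ?_))
        exact (hci i x).2.1.trans (mul_le_mul_of_nonneg_left (hfi i) (hMp i))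
      · exact (hcL x).2.1.trans (mul_le_mul_of_nonneg_left hfL hM0p)
    · rw [hd.fderiv]
      refine le_trans ?_ hsum
      refine (norm_add_le _ _).trans (add_le_add ?_ ?_)
      · refine (norm_sum_le _ _).trans (Finset.sum_le_sum (fun i _ => ?_))
        exact (hci i x).2.2.trans (mul_le_mul_of_nonneg_left (hfi i) (hMp i))
      · exact (hcL x).2.2.trans (mul_le_mul_of_nonneg_left hfL hM0p)

end Pool.Helper4.BT
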